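import Pool.Agent.L7h48.RT.Asm2

/-! Concentration of the largest rainbow tree outside few exceptional densities. -/

namespace Pool.Agent.Results.MP_fdca68_pr.CountablyManyExceptions

open Filter Topology
open scoped Classical

/-- An edge-coloured graph on the vertex set `Fin n` with colours in `Fin c`: every pair of different
vertices is not an edge (`none`) or an edge with a colour (`some j`). -/
abbrev Coloured (n c : ℕ) := {e : Sym2 (Fin n) // ¬ e.IsDiag} → Option (Fin c)

/-- The law of the state of one pair: not an edge with probability `1 - p`, an edge of colour `j` with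
probability `p / c`. -/
noncomputable def law (c : ℕ) (p : ℝ) (s : Option (Fin c)) : ℝ := if s = none then 1 - p else p / c

/-- The expectation of `f` for `G_c(n,p)` (the states of the pairs are independent). -/
noncomputable def expect (n c : ℕ) (p : ℝ) (f : Coloured n c → ℝ) : ℝ :=
  ∑ x : Coloured n c, (∏ e, law c p (x e)) * f x

/-- The probability of the event `A` for `G_c(n,p)`. -/
noncomputable def probability (n c : ℕ) (p : ℝ) (A : Coloured n c → Prop) : ℝ :=
  expect n c p fun x => if A x then 1 else 0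

/-- All edges of `H` are edges of the coloured graph `x`, and they have different colours. -/
def Rainbow {n c : ℕ} (x : Coloured n c) (H : SimpleGraph (Fin n)) : Prop :=
  (∀ e : {e : Sym2 (Fin n) // ¬ e.IsDiag}, e.1 ∈ H.edgeSet → x e ≠ none) ∧
  ∀ e f : {e : Sym2 (Fin n) // ¬ e.IsDiag}, e.1 ∈ H.edgeSet → f.1 ∈ H.edgeSet → x e = x f → e = f

/-- The largest order of a rainbow tree. -/
noncomputable def largest {n c : ℕ} (x : Coloured n c) : ℕ :=
  sSup {k : ℕ | ∃ K : (⊤ : SimpleGraph (Fin n)).Subgraph, K.coe.IsTree ∧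
    Rainbow x K.spanningCoe ∧ K.verts.ncard = k}

/-- Let `α > 0`, and let `T = largest` for `G_c(n,(1+ε)/n)`, `c = ⌊αn⌋`. (1) For all `b, δ, d > 0` and all
large `n` there are at most `9/δ` points such that `P(|T - E T| > δ n) ≤ δ` for all `ε` in `(0,b]` of
distance at least `d` from them. (2) Every increasing sequence of `n` has a subsequence and a countable
set `C` such that for all `ε > 0` outside `C` and all `δ > 0`, `P(|T - E T| > δ n) → 0` along the
subsequence. -/
theorem result (α : ℝ) (hα : 0 < α) :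
    (∀ b δ : ℝ, 0 < b → 0 < δ → ∀ d : ℝ, 0 < d → ∀ᶠ n : ℕ in atTop, ∃ A : Finset ℝ,
      (A.card : ℝ) ≤ 9 / δ ∧ ∀ ε, 0 < ε → ε ≤ b → (∀ s ∈ A, d ≤ |ε - s|) →
        probability n ⌊α * n⌋₊ ((1 + ε) / n) (fun x => δ * n <
          |(largest x : ℝ) - expect n ⌊α * n⌋₊ ((1 + ε) / n) fun y => (largest y : ℝ)|) ≤ δ) ∧
    ∀ φ : ℕ → ℕ, StrictMono φ → ∃ ψ : ℕ → ℕ, StrictMono ψ ∧ ∃ C : Set ℝ, C.Countable ∧
      ∀ ε, 0 < ε → ε ∉ C → ∀ δ, 0 < δ → Tendsto (fun j : ℕ =>
        probability (φ (ψ j)) ⌊α * (φ (ψ j) : ℕ)⌋₊ ((1 + ε) / (φ (ψ j) : ℕ))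
          (fun x => δ * (φ (ψ j) : ℕ) < |(largest x : ℝ) -
            expect (φ (ψ j)) ⌊α * (φ (ψ j) : ℕ)⌋₊ ((1 + ε) / (φ (ψ j) : ℕ))
              fun y => (largest y : ℝ)|)) atTop (𝓝 0) :=
  Pool.Agent.L7h48.RT.main2 α hα

end Pool.Agent.Results.MP_fdca68_pr.CountablyManyExceptions
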